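import Pool.Agent.Q241.LG.Fin

set_option autoImplicit false

/-!
# Which orders of the logarithmic Chowla conjecture suffice

The logarithmically averaged Chowla conjecture (equivalent to Q1 by Tao) is split by the number of exponents equal
to one (the order).  For a set `K` of orders: the vanishing of the correlations of the orders in `K` implies the
vanishing of those of order `m`, for every function with the same squares as the Möbius function, exactly when `K`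
and `m` satisfy a condition of Müntz type.
-/

open Filter Topology

namespace Pool.Agent.Results.MP_3e612f_nt.OrdersThatSuffice

/-- the logarithmic average of the correlation of the problem: shifts `0, k 0, ..., k (r - 1)`, exponents `j` -/
noncomputable def corr (f : ℕ → ℝ) {r : ℕ} (k : Fin r → ℕ) (j : Fin (r + 1) → ℕ) (N : ℕ) : ℝ :=
  (∑ n ∈ Finset.Icc 1 N, (f n ^ (j 0) * ∏ i : Fin r, f (n + k i) ^ (j i.succ)) / n) / Real.log N

/-- order `m`: all the correlations with exactly `m` exponents equal to one tend to `0` -/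
def Order (f : ℕ → ℝ) (m : ℕ) : Prop :=
  ∀ (r : ℕ) (k : Fin r → ℕ), StrictMono k → (∀ i, 1 ≤ k i) → ∀ j : Fin (r + 1) → ℕ, (∀ i, j i = 1 ∨ j i = 2) →
    (Finset.univ.filter fun i => j i = 1).card = m → Tendsto (corr f k j) atTop (𝓝 0)

/-- the logarithmically averaged Chowla conjecture for `f`, as in the problem -/
def LogChowla (f : ℕ → ℝ) : Prop :=
  ∀ (r : ℕ) (k : Fin r → ℕ), StrictMono k → (∀ i, 1 ≤ k i) → ∀ j : Fin (r + 1) → ℕ, (∀ i, j i = 1 ∨ j i = 2) →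
    (¬ ∀ i, j i = 2) → Tendsto (corr f k j) atTop (𝓝 0)

/-- The condition: `m` is in `K`, or `K` contains a multiple of `2 * m`, or the sum of the inverses of the
elements of `K` divisible by `m` diverges. -/
def Suffices (K : Set ℕ) (m : ℕ) : Prop :=
  m ∈ K ∨ (∃ k ∈ K, 2 * m ∣ k) ∨ ¬ Summable (fun k : {k : ℕ // k ∈ K ∧ m ∣ k} => 1 / ((k : ℕ) : ℝ))

/-- the Möbius function, with real values -/
noncomputable def mu (n : ℕ) : ℝ := ((ArithmeticFunction.moebius n : ℤ) : ℝ)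

lemma order_iff (f : ℕ → ℝ) (m : ℕ) : Order f m ↔ Q241LG.TOrd atTop (fun N : ℕ => N) f m := Iff.rfl

lemma tid : Tendsto (fun N : ℕ => N) atTop atTop := tendsto_id

lemma mu_abs (f : ℕ → ℝ) (hf : ∀ n, f n ^ 2 = mu n ^ 2) (n : ℕ) : |f n| ≤ 1 := by
  have h1 : |(ArithmeticFunction.moebius n : ℤ)| ≤ 1 := ArithmeticFunction.abs_moebius_le_one
  have h2 : |mu n| ≤ 1 := by
    unfold mu
    exact_mod_cast h1
  rw [← sq_le_one_iff_abs_le_one, hf, sq_le_one_iff_abs_le_one]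
  exact h2

lemma chowla_iff (f : ℕ → ℝ) : LogChowla f ↔ ∀ m, 1 ≤ m → Order f m := by
  constructor
  · intro h m hm r k hk hk1 j hj hcard
    refine h r k hk hk1 j hj fun h2 => ?_
    have : (Finset.univ.filter fun i => j i = 1) = ∅ := by
      rw [Finset.filter_eq_empty_iff]
      intro i _
      rw [h2 i]
      norm_num
    rw [this, Finset.card_empty] at hcard
    omega
  · intro h r k hk hk1 j hj hne
    refine h (Finset.univ.filter fun i => j i = 1).card ?_ r k hk hk1 j hj rfl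
    rw [Nat.one_le_iff_ne_zero, Finset.card_ne_zero]
    push Not at hne
    obtain ⟨i, hi⟩ := hne
    exact ⟨i, Finset.mem_filter.2 ⟨Finset.mem_univ _, (hj i).resolve_right hi⟩⟩

lemma suff (K : Set ℕ) (hK : ∀ k ∈ K, 1 ≤ k) (m : ℕ) (hm : 1 ≤ m) (hS : Suffices K m) (f : ℕ → ℝ)
    (hf : ∀ n, f n ^ 2 = mu n ^ 2) (h : ∀ k ∈ K, Order f k) : Order f m := by
  have hf1 := mu_abs f hf
  rw [order_iff, Q241LG.tord_iff _ tid f hf1 m hm]
  exact Q241LG.gsuff (Q241LG.isMean_log _ tid) K hK m hm hS {1, 2} 1 le_rfl f hf1 fun k hk =>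
    (Q241LG.tord_iff _ tid f hf1 k (hK k hk)).1 (h k hk)

/-- the averages of a product over `m` equidistant points -/
noncomputable def block (f : ℕ → ℝ) (D m N : ℕ) : ℝ := (∑ n ∈ Finset.Icc 1 N, (∏ i : Fin m, f (n + D * i)) / n) / Real.log N

/-- Cesàro averages along `a n + c i`, `i < r`, with exponents `ε i` -/
noncomputable def cesaro (f : ℕ → ℝ) (a : ℕ) {r : ℕ} (c ε : Fin r → ℕ) (N : ℕ) : ℝ :=
  (∑ n ∈ Finset.Icc 1 N, ∏ i, f (a * n + c i) ^ (ε i)) / N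

lemma nec (K : Set ℕ) (hK : ∀ k ∈ K, 1 ≤ k) (m : ℕ) (hm : 1 ≤ m) (hS : ¬ Suffices K m) :
    ∃ f : ℕ → ℝ, (∀ n, f n ^ 2 = mu n ^ 2) ∧
      (∀ k ∈ K, ∀ a, 1 ≤ a → ∀ (r : ℕ) (c : Fin r → ℕ), Function.Injective c → ∀ ε : Fin r → ℕ, (∀ i, ε i = 1 ∨ ε i = 2) →
        (Finset.univ.filter fun i => ε i = 1).card = k → Tendsto (cesaro f a c ε) atTop (𝓝 0)) ∧
      (∀ k ∈ K, Order f k) ∧ ¬ Order f m ∧
      ∃ D : ℕ, 0 < D ∧ ∃ η : ℝ, 0 < η ∧ ∀ᶠ N : ℕ in atTop, η ≤ block f D m N := by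
  obtain ⟨f, hf, hfK, D, hD, δ, hδ, hlow⟩ := Q241LG.exists_moeb2 K hK m hm hS
  have hf1 := mu_abs f hf
  have hK' : ∀ k ∈ K, Order f k := by
    intro k hk
    rw [order_iff, Q241LG.tord_iff _ tid f hf1 k (hK k hk), Q241LG.gord_log_iff]
    intro r c hc ε hε hcard
    exact Q241LG.la_of_cesaro _ _ (hfK k hk 1 le_rfl r c hc ε (fun i => by simpa using hε i) hcard)
  have hu : ∀ n, |∏ i : Fin m, f (n + D * i)| ≤ 1 := fun n => by
    rw [Finset.abs_prod]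
    exact Finset.prod_le_one (fun _ _ => abs_nonneg _) fun _ _ => hf1 _
  refine ⟨f, hf, hfK, hK', fun h => ?_, D, hD, δ / 4, by positivity, Q241LG.log_lower _ hu hδ hlow⟩
  rw [order_iff, Q241LG.tord_iff _ tid f hf1 m hm, Q241LG.gord_log_iff] at h
  have h1 := h m (fun i => D * i) (fun i j hij => Fin.ext (Nat.eq_of_mul_eq_mul_left hD hij)) (fun _ => 1)
    (fun _ => by simp) (by simp)
  simp only [one_mul, pow_one] at h1
  exact Q241LG.log_not _ hu hδ hlow (fun N : ℕ => N) tid h1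

lemma suffices_mult (M : ℕ) (hM : 1 ≤ M) (m : ℕ) (hm : 1 ≤ m) : Suffices {k | 1 ≤ k ∧ M ∣ k} m :=
  Or.inr (Or.inl ⟨2 * m * M, ⟨Nat.mul_pos (by omega) hM, Dvd.intro_left _ rfl⟩, Dvd.intro _ rfl⟩)

lemma suffices_fact (m : ℕ) (hm : 1 ≤ m) : Suffices {k | ∃ j : ℕ, 1 ≤ j ∧ k = 2 * j.factorial} m :=
  Or.inr (Or.inl ⟨2 * m.factorial, ⟨m, hm, rfl⟩, Nat.mul_dvd_mul_left 2 (Nat.dvd_factorial hm le_rfl)⟩)

lemma not_odd (m : ℕ) (hm : 1 ≤ m) (he : Even m) : ¬ Suffices {k | 1 ≤ k ∧ (Odd k ∨ k < m)} m := by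
  rintro (⟨_, h | h⟩ | ⟨k, ⟨hk, h | h⟩, d, hd⟩ | h)
  · exact (Nat.not_odd_iff_even.2 he) h
  · exact lt_irrefl _ h
  · apply (Nat.not_odd_iff_even.2 ?_) h
    rw [hd, mul_assoc]
    exact even_two_mul _
  · rcases Nat.eq_zero_or_pos d with h0 | h0
    · rw [h0, mul_zero] at hd; omega
    · have : 2 * m * 1 ≤ 2 * m * d := Nat.mul_le_mul_left _ h0
      omega
  · apply h
    have : IsEmpty {k : ℕ // k ∈ {k | 1 ≤ k ∧ (Odd k ∨ k < m)} ∧ m ∣ k} := by
      refine ⟨fun ⟨k, ⟨hk, h1⟩, hmk⟩ => ?_⟩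
      rcases h1 with h1 | h1
      · exact (Nat.not_odd_iff_even.2 (he.trans_dvd hmk)) h1
      · exact absurd (Nat.le_of_dvd hk hmk) (by omega)
    exact summable_empty

/-- **Which orders of the logarithmic Chowla conjecture suffice.** -/
theorem result :
    -- the exact condition for one order
    (∀ K : Set ℕ, (∀ k ∈ K, 1 ≤ k) → ∀ m, 1 ≤ m →
      (Suffices K m ↔ ∀ f : ℕ → ℝ, (∀ n, f n ^ 2 = mu n ^ 2) → (∀ k ∈ K, Order f k) → Order f m)) ∧
    -- the exact condition for the conjecture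
    (∀ K : Set ℕ, (∀ k ∈ K, 1 ≤ k) →
      ((∀ m, 1 ≤ m → Suffices K m) ↔
        ∀ f : ℕ → ℝ, (∀ n, f n ^ 2 = mu n ^ 2) → (∀ k ∈ K, Order f k) → LogChowla f)) ∧
    -- the Möbius function
    (∀ K : Set ℕ, (∀ k ∈ K, 1 ≤ k) → (∀ m, 1 ≤ m → Suffices K m) → (LogChowla mu ↔ ∀ k ∈ K, Order mu k)) ∧
    (∀ M : ℕ, 1 ≤ M → (LogChowla mu ↔ ∀ k, 1 ≤ k → M ∣ k → Order mu k)) ∧
    (LogChowla mu ↔ ∀ j : ℕ, 1 ≤ j → Order mu (2 * j.factorial)) ∧
    -- if the condition fails: a function whose correlations of the orders in `K` vanish even in the sense of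
    -- Cesàro along all progressions, while a logarithmic correlation of order `m` stays away from `0`
    (∀ K : Set ℕ, (∀ k ∈ K, 1 ≤ k) → ∀ m, 1 ≤ m → ¬ Suffices K m →
      ∃ f : ℕ → ℝ, (∀ n, f n ^ 2 = mu n ^ 2) ∧
        (∀ k ∈ K, ∀ a, 1 ≤ a → ∀ (r : ℕ) (c : Fin r → ℕ), Function.Injective c → ∀ ε : Fin r → ℕ,
          (∀ i, ε i = 1 ∨ ε i = 2) → (Finset.univ.filter fun i => ε i = 1).card = k →
          Tendsto (cesaro f a c ε) atTop (𝓝 0)) ∧
        (∀ k ∈ K, Order f k) ∧ ¬ Order f m ∧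
        ∃ D : ℕ, 0 < D ∧ ∃ η : ℝ, 0 < η ∧ ∀ᶠ N : ℕ in atTop, η ≤ block f D m N) ∧
    -- the odd orders and the orders smaller than `m` do not imply the even order `m`
    (∀ m, 1 ≤ m → Even m → ∃ f : ℕ → ℝ, (∀ n, f n ^ 2 = mu n ^ 2) ∧
      (∀ k, 1 ≤ k → (Odd k ∨ k < m) → Order f k) ∧ ¬ Order f m) := by
  have hC : ∀ K : Set ℕ, (∀ k ∈ K, 1 ≤ k) → (∀ m, 1 ≤ m → Suffices K m) →
      (LogChowla mu ↔ ∀ k ∈ K, Order mu k) := by
    intro K hK hS
    rw [chowla_iff]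
    exact ⟨fun h k hk => h k (hK k hk), fun h m hm => suff K hK m hm (hS m hm) mu (fun _ => rfl) h⟩
  refine ⟨fun K hK m hm => ⟨fun hS f hf h => suff K hK m hm hS f hf h, fun h => ?_⟩,
    fun K hK => ⟨fun hS f hf h => ?_, fun h m hm => ?_⟩, hC, fun M hM => ?_, ?_, nec, fun m hm he => ?_⟩
  · by_contra hS
    obtain ⟨f, hf, -, hfK, hfm, -⟩ := nec K hK m hm hS
    exact hfm (h f hf hfK)
  · rw [chowla_iff]
    exact fun m hm => suff K hK m hm (hS m hm) f hf h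
  · by_contra hS
    obtain ⟨f, hf, -, hfK, hfm, -⟩ := nec K hK m hm hS
    exact hfm ((chowla_iff f).1 (h f hf hfK) m hm)
  · rw [hC {k | 1 ≤ k ∧ M ∣ k} (fun k hk => hk.1) (fun m hm => suffices_mult M hM m hm)]
    exact ⟨fun h k h1 h2 => h k ⟨h1, h2⟩, fun h k hk => h k hk.1 hk.2⟩
  · rw [hC {k | ∃ j : ℕ, 1 ≤ j ∧ k = 2 * j.factorial} (fun k ⟨j, _, hk⟩ => by
      rw [hk]; have := j.factorial_pos; omega) (fun m hm => suffices_fact m hm)]
    exact ⟨fun h j hj => h _ ⟨j, hj, rfl⟩, fun h k ⟨j, hj, hk⟩ => by rw [hk]; exact h j hj⟩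
  · obtain ⟨f, hf, -, hfK, hfm, -⟩ := nec _ (fun k hk => hk.1) m hm (not_odd m hm he)
    exact ⟨f, hf, fun k h1 h2 => hfK k ⟨h1, h2⟩, hfm⟩

end Pool.Agent.Results.MP_3e612f_nt.OrdersThatSuffice
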