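import Mathlib
import Pool.Agent.Q127.SD.F

/-!
# The logarithmic Sarnak conjecture holds if and only if it holds for smooth diffeomorphisms

For every bounded weight `u`, for instance the Möbius function, the logarithmic Sarnak conjecture for all systems
of zero topological entropy is equivalent to each of the following special cases:

* the `C^∞` diffeomorphisms of `ℝ ^ d`, `d ≥ 3` fixed, which are the identity outside the unit cube and have
  zero entropy, with one coordinate as the only observable;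
* the `C^∞` maps of `ℝ ^ d`, `d ≥ 2` fixed, with the same properties;
* the `C^∞` diffeomorphisms of zero entropy of one fixed compact `C^∞` manifold `M` of dimension `d ≥ 3`, which
  are the identity outside a fixed nonempty open set, with the real `C^∞` functions on `M` as observables;
* the same for `C^∞` maps and `d ≥ 2`.
-/

set_option autoImplicit false

namespace Pool.Agent.Results.MP_3e612f_nt.SmoothDiffeomorphismsSuffice

open Finset Filter Topology Dynamics
open scoped Manifold ContDiff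

/-- the logarithmic means of the first `N` terms of `a` tend to `0` -/
def LogMeanZero (a : ℕ → ℂ) : Prop :=
  Tendsto (fun N : ℕ => (1 / (Real.log (N : ℝ) : ℂ)) * ∑ n ∈ Icc 1 N, a n / (n : ℂ)) atTop (𝓝 0)

/-- the logarithmic Sarnak conjecture with the weight `u` (for the Möbius function this is Q1) -/
def LogSarnak (u : ℕ → ℂ) : Prop :=
  ∀ (X : Type) [MetricSpace X] [CompactSpace X] (T : X → X), Continuous T →
    coverEntropy T Set.univ = 0 → ∀ (f : C(X, ℂ)) (x : X), LogMeanZero (fun n => f (T^[n] x) * u n)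

/-- The case of the `C^∞` diffeomorphisms `h` of `ℝ ^ d` which are the identity outside the open unit cube
(the norm is the maximum norm) and have zero topological entropy on the closed unit cube, with the `i`-th
coordinate as the only observable. -/
def LogSarnakForCubeDiffeomorphisms (u : ℕ → ℂ) (d : ℕ) (i : Fin d) : Prop :=
  ∀ h : (Fin d → ℝ) ≃ₜ (Fin d → ℝ), ContDiff ℝ ∞ h → ContDiff ℝ ∞ h.symm →
    (∀ v, 1 ≤ ‖v‖ → h v = v) → coverEntropy h (Metric.closedBall 0 1) = 0 →
    ∀ v, ‖v‖ ≤ 1 → LogMeanZero (fun n => (((h^[n] v) i : ℝ) : ℂ) * u n)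

/-- The case of the `C^∞` maps `T` of `ℝ ^ d` which are the identity outside the open unit cube, map the closed
unit cube into itself and have zero topological entropy on it, with the `i`-th coordinate as the only
observable. -/
def LogSarnakForSmoothCubeMaps (u : ℕ → ℂ) (d : ℕ) (i : Fin d) : Prop :=
  ∀ T : (Fin d → ℝ) → (Fin d → ℝ), ContDiff ℝ ∞ T →
    (∀ v, 1 ≤ ‖v‖ → T v = v) → (∀ v, ‖v‖ ≤ 1 → ‖T v‖ ≤ 1) → coverEntropy T (Metric.closedBall 0 1) = 0 →
    ∀ v, ‖v‖ ≤ 1 → LogMeanZero (fun n => (((T^[n] v) i : ℝ) : ℂ) * u n)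

/-- The case of the `C^∞` diffeomorphisms of zero topological entropy of the manifold `M` which are the identity
outside `U`, with the real valued `C^∞` functions on `M` as observables. -/
def LogSarnakForDiffeomorphisms (u : ℕ → ℂ) (d : ℕ) (M : Type) [MetricSpace M]
    [ChartedSpace (EuclideanSpace ℝ (Fin d)) M] (U : Set M) : Prop :=
  ∀ h : Diffeomorph (𝓡 d) (𝓡 d) M M ∞, (∀ m, m ∉ U → h m = m) → coverEntropy h Set.univ = 0 →
    ∀ f : M → ℝ, ContMDiff (𝓡 d) 𝓘(ℝ, ℝ) ∞ f → ∀ m : M, LogMeanZero (fun n => ((f (h^[n] m) : ℝ) : ℂ) * u n)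

/-- The case of the `C^∞` maps of zero topological entropy of the manifold `M` to itself which are the identity
outside `U`, with the real valued `C^∞` functions on `M` as observables. -/
def LogSarnakForSmoothMaps (u : ℕ → ℂ) (d : ℕ) (M : Type) [MetricSpace M]
    [ChartedSpace (EuclideanSpace ℝ (Fin d)) M] (U : Set M) : Prop :=
  ∀ T : M → M, ContMDiff (𝓡 d) (𝓡 d) ∞ T → (∀ m, m ∉ U → T m = m) → coverEntropy T Set.univ = 0 →
    ∀ f : M → ℝ, ContMDiff (𝓡 d) 𝓘(ℝ, ℝ) ∞ f → ∀ m : M, LogMeanZero (fun n => ((f (T^[n] m) : ℝ) : ℂ) * u n)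

theorem result (u : ℕ → ℂ) (hu : ∃ B : ℝ, ∀ n, ‖u n‖ ≤ B) (d : ℕ) :
    (3 ≤ d → ∀ i : Fin d, LogSarnak u ↔ LogSarnakForCubeDiffeomorphisms u d i) ∧
    (2 ≤ d → ∀ i : Fin d, LogSarnak u ↔ LogSarnakForSmoothCubeMaps u d i) ∧
    (3 ≤ d → ∀ (M : Type) [MetricSpace M] [CompactSpace M] [ChartedSpace (EuclideanSpace ℝ (Fin d)) M]
      [IsManifold (𝓡 d) ∞ M] (U : Set M), IsOpen U → U.Nonempty →
      (LogSarnak u ↔ LogSarnakForDiffeomorphisms u d M U)) ∧
    (2 ≤ d → ∀ (M : Type) [MetricSpace M] [CompactSpace M] [ChartedSpace (EuclideanSpace ℝ (Fin d)) M]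
      [IsManifold (𝓡 d) ∞ M] (U : Set M), IsOpen U → U.Nonempty →
      (LogSarnak u ↔ LogSarnakForSmoothMaps u d M U)) := by
  obtain ⟨B, hB⟩ := hu
  have hκ := Pool.Agent.Q132.TS.good_log hB
  have conv : ∀ g : ℕ → ℂ, Tendsto (Pool.Agent.Q132.TS.Av (fun N n => u n / n / ((Real.log (N : ℝ) : ℝ) : ℂ)) g) atTop (𝓝 0) ↔
      LogMeanZero (fun n => g n * u n) := by
    intro g
    exact tendsto_congr (fun N => Pool.Agent.Q132.TS.log_conv u g N)
  have e1 : Pool.Agent.Q132.TS.Sar (fun N n => u n / n / ((Real.log (N : ℝ) : ℝ) : ℂ)) False ↔ LogSarnak u := by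
    constructor
    · intro H X _ _ T hT hE f x
      exact (conv _).1 (H X T hT hE (fun h => h.elim) f x)
    · intro H X _ _ T hT hE _ f x
      exact (conv _).2 (H X T hT hE f x)
  have back : (∀ b : ℕ → Bool, Pool.Agent.Q132.TS.ZE b →
      Tendsto (Pool.Agent.Q132.TS.Av (fun N n => u n / n / ((Real.log (N : ℝ) : ℝ) : ℂ)) (Pool.Agent.Q132.TS.ind b))
        atTop (𝓝 0)) → LogSarnak u := fun H => e1.1 (Pool.Agent.Q132.CB.sar_of_ind hκ H)
  have two : ∀ {d : ℕ}, 2 ≤ d → ∀ i : Fin d, ∃ t : Fin d, i ≠ t := by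
    intro d hd i
    by_contra hcon
    push Not at hcon
    have h1 : i = ⟨0, by omega⟩ := hcon _
    have h2 : i = ⟨1, by omega⟩ := hcon _
    rw [h1] at h2
    simp at h2
  have three : 3 ≤ d → ∀ i : Fin d, ∃ y t : Fin d, i ≠ y ∧ t ≠ i ∧ t ≠ y := by
    intro hd i
    obtain ⟨y, hy⟩ := two (by omega) i
    have : ((Finset.univ.erase i).erase y).Nonempty := by
      rw [← Finset.card_pos, Finset.card_erase_of_mem (Finset.mem_erase.2 ⟨hy.symm, Finset.mem_univ _⟩),
        Finset.card_erase_of_mem (Finset.mem_univ _), Finset.card_univ, Fintype.card_fin]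
      omega
    obtain ⟨t, ht⟩ := this
    rw [Finset.mem_erase, Finset.mem_erase] at ht
    exact ⟨y, t, hy, ht.2.1, ht.1⟩
  refine ⟨fun hd i => ⟨fun H => ?_, fun H => back ?_⟩, fun hd i => ⟨fun H => ?_, fun H => back ?_⟩,
    fun hd M _ _ _ _ U hU hUn => ⟨fun H => ?_, fun H => back ?_⟩,
    fun hd M _ _ _ _ U hU hUn => ⟨fun H => ?_, fun H => back ?_⟩⟩
  · intro h h1 h2 hoff hE v hv
    have hball : ∀ v, ‖v‖ ≤ 1 → ‖h v‖ ≤ 1 := by
      intro v hv
      by_contra hcon
      rw [not_le] at hcon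
      have := hoff _ hcon.le
      have h3 := h.injective this
      rw [h3] at hcon
      linarith
    exact (conv _).1 (Pool.Agent.Q132.CB.cube_of_sar (e1.2 H) h.continuous hball hE i v hv)
  · obtain ⟨y, t, hxy, hxt, hyt⟩ := three hd i
    apply Pool.Agent.Q127.SD.of_smooth hκ hxy hxt hyt
    intro F hF hFs hE v hv
    exact (conv _).2 (H hF.homeo hFs (Pool.Agent.Q127.SD.Hm_symm_smooth hF hFs) hF.off hE v hv)
  · intro T h1 hoff hball hE v hv
    exact (conv _).1 (Pool.Agent.Q132.CB.cube_of_sar (e1.2 H) h1.continuous hball hE i v hv)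
  · obtain ⟨t, hxt⟩ := two hd i
    apply Pool.Agent.Q127.SD.of_smooth_maps hκ hxt
    intro F hFs hoff hball hE v hv
    exact (conv _).2 (H F hFs hoff hball hE v hv)
  · intro h _ hE f hf m
    exact H M h h.continuous hE ⟨fun m => ((f m : ℝ) : ℂ), Complex.continuous_ofReal.comp hf.continuous⟩ m
  · obtain ⟨y, t, hxy, hxt, hyt⟩ := three hd ⟨0, by omega⟩
    apply Pool.Agent.Q127.SD.of_manifold_diffeos (M := M) hU hUn hκ hxy hxt hyt
    intro h hoff hE f m
    exact (conv _).2 (H h hoff hE f f.contMDiff m)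
  · intro T hT _ hE f hf m
    exact H M T hT.continuous hE ⟨fun m => ((f m : ℝ) : ℂ), Complex.continuous_ofReal.comp hf.continuous⟩ m
  · obtain ⟨t, hxt⟩ := two hd ⟨0, by omega⟩
    apply Pool.Agent.Q127.SD.of_manifold_maps (d := d) (M := M) hU hUn hκ hxt
    intro T hT hoff hE f m
    exact (conv _).2 (H T hT hoff hE f f.contMDiff m)

end Pool.Agent.Results.MP_3e612f_nt.SmoothDiffeomorphismsSuffice
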