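import Mathlib
import Pool.Agent.Q132.TS.G

/-!
# The logarithmic Sarnak conjecture holds if and only if it holds for Toeplitz sequences of zero entropy

For every bounded weight `u`, for instance the Möbius or the Liouville function, and every `j` the following are
equivalent, all with logarithmic averages: Sarnak's conjecture for all systems of zero entropy; Sarnak's
conjecture for the minimal systems of zero entropy; the strong form in short intervals (a new point of the system
in every interval) for all systems of zero entropy; the orthogonality of `u` to all Toeplitz sequences of zeros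
and ones of zero entropy, with periods powers of two, which vanish outside one residue class modulo `2 ^ j`. The
same reduction holds inside the class of the sequences with polynomially many words.
-/

set_option autoImplicit false

namespace Pool.Agent.Results.MP_3e612f_nt.ToeplitzSequencesSuffice

open Finset Filter Topology

/-- `b` is a Toeplitz sequence (every place lies on an arithmetic progression on which `b` is constant) and all
the periods can be taken to be powers of two. -/
def Toeplitz (b : ℕ → Bool) : Prop := ∀ n, ∃ j, ∀ m, b (n + m * 2 ^ j) = b n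

/-- the number of different words of length `L` of `b` -/
noncomputable def complexity (b : ℕ → Bool) (L : ℕ) : ℕ :=
  (Set.range (fun n => fun i : Fin L => b (n + i))).ncard

/-- `log (complexity b L) = o(L)` -/
def ZeroEntropy (b : ℕ → Bool) : Prop :=
  Tendsto (fun L : ℕ => Real.log (complexity b L) / L) atTop (𝓝 0)

/-- the number of words of length `L` is at most `C L ^ d` -/
def PolynomialGrowth (b : ℕ → Bool) : Prop := ∃ C d : ℕ, ∀ L : ℕ, 1 ≤ L → complexity b L ≤ C * L ^ d

/-- the sequence `b` vanishes outside one residue class modulo `2 ^ j` -/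
def InOneClass (j : ℕ) (b : ℕ → Bool) : Prop := ∃ r, ∀ n, b n = true → n % 2 ^ j = r

/-- `(1 / log N) ∑_{n ≤ N} b(n) u(n) / n` tends to `0` -/
def LogOrthogonal (u : ℕ → ℂ) (b : ℕ → Bool) : Prop :=
  Tendsto (fun N : ℕ => (1 / (Real.log (N : ℝ) : ℂ)) * ∑ n ∈ Icc 1 N, if b n then u n / (n : ℂ) else 0)
    atTop (𝓝 0)

/-- the logarithmic Sarnak conjecture with the weight `u` (for the Möbius function this is Q1) -/
def LogSarnak (u : ℕ → ℂ) : Prop :=
  ∀ (X : Type) [MetricSpace X] [CompactSpace X] (T : X → X), Continuous T →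
    Dynamics.coverEntropy T Set.univ = 0 → ∀ f : X → ℂ, Continuous f → ∀ x : X,
    Tendsto (fun N : ℕ => (1 / (Real.log (N : ℝ) : ℂ)) * ∑ n ∈ Icc 1 N, f (T^[n] x) * u n / (n : ℂ))
      atTop (𝓝 0)

/-- the same for the systems all of whose forward orbits are dense -/
def LogSarnakMinimal (u : ℕ → ℂ) : Prop :=
  ∀ (X : Type) [MetricSpace X] [CompactSpace X] (T : X → X), Continuous T →
    Dynamics.coverEntropy T Set.univ = 0 → (∀ y, Dense (Set.range (fun n => T^[n] y))) →
    ∀ f : X → ℂ, Continuous f → ∀ x : X,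
    Tendsto (fun N : ℕ => (1 / (Real.log (N : ℝ) : ℂ)) * ∑ n ∈ Icc 1 N, f (T^[n] x) * u n / (n : ℂ))
      atTop (𝓝 0)

/-- the strong form: the integers are cut into intervals whose lengths tend to infinity, and in every interval
the orbit of a new point is followed -/
def LogSarnakStrong (u : ℕ → ℂ) : Prop :=
  ∀ (X : Type) [MetricSpace X] [CompactSpace X] (T : X → X), Continuous T →
    Dynamics.coverEntropy T Set.univ = 0 → ∀ f : X → ℂ, Continuous f → ∀ b : ℕ → ℕ, StrictMono b →
    Tendsto (fun k => b (k + 1) - b k) atTop atTop → ∀ x : ℕ → X,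
    Tendsto (fun K => (1 / Real.log (b K : ℝ)) *
      ∑ k ∈ range K, ‖∑ n ∈ Ioc (b k) (b (k + 1)), f (T^[n] (x k)) * u n / (n : ℂ)‖) atTop (𝓝 0)

theorem result (u : ℕ → ℂ) (hu : ∃ B : ℝ, ∀ n, ‖u n‖ ≤ B) (j : ℕ) :
    (LogSarnak u ↔ LogSarnakMinimal u) ∧
    (LogSarnak u ↔ LogSarnakStrong u) ∧
    (LogSarnak u ↔ ∀ b : ℕ → Bool, Toeplitz b → ZeroEntropy b → InOneClass j b → LogOrthogonal u b) ∧
    ((∀ a : ℕ → Bool, PolynomialGrowth a → LogOrthogonal u a) ↔
      ∀ b : ℕ → Bool, Toeplitz b → PolynomialGrowth b → InOneClass j b → LogOrthogonal u b) := by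
  obtain ⟨B, hB⟩ := hu
  obtain ⟨h1, h2, h3, h4⟩ := Pool.Agent.Q132.TS.all_equiv (w := fun n => u n / n)
    (Z := fun N : ℕ => Real.log (N : ℝ))
    (fun N => Real.log_natCast_nonneg N) (Real.tendsto_log_atTop.comp tendsto_natCast_atTop_atTop)
    (Pool.Agent.Q132.TS.good_log hB) j
  have e1 : Pool.Agent.Q132.TS.Sar (fun N n => u n / n / ((Real.log (N : ℝ) : ℝ) : ℂ)) False ↔
      LogSarnak u := by
    constructor
    · intro H X _ _ T hT hE f hf x
      refine (H X T hT hE (fun h => h.elim) ⟨f, hf⟩ x).congr (fun N => ?_)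
      rw [Pool.Agent.Q132.TS.log_conv]
      rfl
    · intro H X _ _ T hT hE _ f x
      refine (H X T hT hE f f.continuous x).congr (fun N => ?_)
      rw [Pool.Agent.Q132.TS.log_conv]
  have e2 : Pool.Agent.Q132.TS.Sar (fun N n => u n / n / ((Real.log (N : ℝ) : ℝ) : ℂ)) True ↔
      LogSarnakMinimal u := by
    constructor
    · intro H X _ _ T hT hE hd f hf x
      refine (H X T hT hE (fun _ => hd) ⟨f, hf⟩ x).congr (fun N => ?_)
      rw [Pool.Agent.Q132.TS.log_conv]
      rfl
    · intro H X _ _ T hT hE hd f x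
      refine (H X T hT hE (hd trivial) f f.continuous x).congr (fun N => ?_)
      rw [Pool.Agent.Q132.TS.log_conv]
  have hmul : ∀ (n : ℕ) (c : ℂ), u n / n * c = c * u n / n := by
    intro n c; ring
  have e3 : Pool.Agent.Q132.TS.Strong (fun n => u n / n) (fun N : ℕ => Real.log (N : ℝ)) ↔
      LogSarnakStrong u := by
    constructor
    · intro H X _ _ T hT hE f hf b hb hg x
      refine (H X T hT hE ⟨f, hf⟩ b hb hg x).congr (fun K => ?_)
      simp only [hmul]
      rfl
    · intro H X _ _ T hT hE f b hb hg x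
      refine (H X T hT hE f f.continuous b hb hg x).congr (fun K => ?_)
      simp only [hmul]
  have e4 : ∀ b : ℕ → Bool, Tendsto (Pool.Agent.Q132.TS.Av (fun N n => u n / n / ((Real.log (N : ℝ) : ℝ) : ℂ))
      (Pool.Agent.Q132.TS.ind b)) atTop (𝓝 0) ↔ LogOrthogonal u b := by
    intro b
    exact tendsto_congr (fun N => Pool.Agent.Q132.TS.log_ind u b N)
  have e5 : ∀ b : ℕ → Bool, Pool.Agent.Q132.TS.ZE b ↔ ZeroEntropy b := fun b =>
    Pool.Agent.Q132.TS.ze_iff (Set.toFinite _)
  refine ⟨?_, ?_, ?_, ?_⟩
  · rw [← e1, ← e2]; exact h1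
  · rw [← e1, ← e3]; exact h2
  · rw [← e1]
    refine h3.trans ?_
    constructor
    · intro H b hb hZ hr
      exact (e4 b).1 (H b hb ((e5 b).2 hZ) hr)
    · intro H b hb hZ hr
      exact (e4 b).2 (H b hb ((e5 b).1 hZ) hr)
  · constructor
    · intro H b _ hP _
      exact H b hP
    · intro H a ha
      refine (e4 a).1 (h4.2 ?_ a ha)
      intro b hb hP hr
      exact (e4 b).2 (H b hb hP hr)

end Pool.Agent.Results.MP_3e612f_nt.ToeplitzSequencesSuffice
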