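import Pool.Agent.Q197.PS.LG
import Pool.Agent.Q197.PS.EN

/-! # The logarithmic Sarnak conjecture along random unions of residue classes

For a sequence `u` and a set `A` of residues modulo `P` let `mean u P A N` be `1 / log N` times the sum of
the `u(n) / n` over the `n ≤ N` with residue in `A`, and `good u P` the number of the `2 ^ P` sets `A` for
which it tends to zero. -/

set_option autoImplicit false

open Finset Filter Topology

namespace Pool.Agent.Results.MP_3e612f_nt.UnionsOfClasses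

/-- The logarithmic mean over the `1 ≤ n ≤ N` with `n mod P ∈ A`. -/
noncomputable def mean (u : ℕ → ℂ) (P : ℕ) (A : Finset ℕ) (N : ℕ) : ℂ :=
  (∑ n ∈ (Icc 1 N).filter (fun n => n % P ∈ A), u n / (n : ℂ)) / (Real.log N : ℂ)

/-- The logarithmic mean over all `n ≤ N`. -/
noncomputable def meanAll (u : ℕ → ℂ) (N : ℕ) : ℂ :=
  (1 / (Real.log (N : ℝ) : ℂ)) * ∑ n ∈ Icc 1 N, u n / (n : ℂ)

open Classical in
/-- The number of the sets `A` of residues modulo `P` along which the means tend to zero. -/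
noncomputable def good (u : ℕ → ℂ) (P : ℕ) : ℕ :=
  ((range P).powerset.filter (fun A => Tendsto (mean u P A) atTop (𝓝 0))).card

/-- The terms `f(T^n x) μ(n)`. -/
noncomputable def term {X : Type} (T : X → X) (f : X → ℂ) (x : X) (n : ℕ) : ℂ :=
  f (T^[n] x) * ((ArithmeticFunction.moebius n : ℤ) : ℂ)

/-- The logarithmic Sarnak conjecture (the statement of `S16659`). -/
def LogSarnak : Prop :=
  ∀ (X : Type) [MetricSpace X] [CompactSpace X] (T : X → X), Continuous T →
    Dynamics.coverEntropy T Set.univ = 0 →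
    ∀ (f : X → ℂ), Continuous f → ∀ x : X, Tendsto (meanAll (term T f x)) atTop (𝓝 0)

/-- The condition on a small share of the unions of classes. -/
def Weak : Prop :=
  ∀ (X : Type) [MetricSpace X] [CompactSpace X] (T : X → X), Continuous T →
    Dynamics.coverEntropy T Set.univ = 0 →
    ∀ (f : X → ℂ), Continuous f → ∀ x : X, ∀ K : ℝ,
      ∃ P : ℕ, 0 < P ∧ K * 2 ^ P / √P ≤ good (term T f x) P

lemma meanAll_eq (u : ℕ → ℂ) (N : ℕ) : meanAll u N = mean u 1 {0} N := by
  unfold meanAll mean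
  rw [filter_true_of_mem (fun n _ => by rw [mem_singleton, Nat.mod_one]), one_div, ← div_eq_inv_mul]

lemma bounded {X : Type} [MetricSpace X] [CompactSpace X] {f : X → ℂ} (hf : Continuous f) :
    ∃ M : ℝ, 0 < M ∧ ∀ y, ‖f y‖ ≤ M := by
  obtain ⟨M, hM⟩ : ∃ M : ℝ, ∀ y, ‖f y‖ ≤ M := ⟨_, fun y => (⟨f, hf⟩ : C(X, ℂ)).norm_coe_le_norm y⟩
  exact ⟨max M 1, lt_of_lt_of_le one_pos (le_max_right _ _), fun y => (hM y).trans (le_max_left _ _)⟩

lemma term_le {X : Type} (T : X → X) {f : X → ℂ} {M : ℝ} (hM0 : 0 < M) (hM : ∀ y, ‖f y‖ ≤ M) (x : X) (n : ℕ) :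
    ‖(M : ℂ)⁻¹ * term T f x n‖ ≤ 1 := by
  unfold term
  rw [norm_mul, norm_mul, norm_inv, Complex.norm_real, Real.norm_of_nonneg hM0.le, inv_mul_le_iff₀ hM0, mul_one]
  have h1 : ‖((ArithmeticFunction.moebius n : ℤ) : ℂ)‖ ≤ 1 := by
    rcases ArithmeticFunction.moebius_eq_or n with h | h | h <;> rw [h] <;> simp
  calc ‖f (T^[n] x)‖ * ‖((ArithmeticFunction.moebius n : ℤ) : ℂ)‖ ≤ M * 1 :=
        mul_le_mul (hM _) h1 (norm_nonneg _) hM0.le
    _ = M := mul_one _

lemma mean_smul (u : ℕ → ℂ) (s : ℂ) (P : ℕ) (A : Finset ℕ) (N : ℕ) :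
    mean (fun n => s * u n) P A N = s * mean u P A N := by
  unfold mean
  rw [← mul_div_assoc, mul_sum]
  congr 1
  refine sum_congr rfl fun n _ => ?_
  rw [mul_div_assoc]

lemma smul_iff {u : ℕ → ℂ} {s : ℂ} (hs : s ≠ 0) (P : ℕ) (A : Finset ℕ) :
    Tendsto (mean (fun n => s * u n) P A) atTop (𝓝 0) ↔ Tendsto (mean u P A) atTop (𝓝 0) := by
  have h : mean (fun n => s * u n) P A = fun N => s * mean u P A N := funext fun N => mean_smul u s P A N
  rw [h]
  constructor
  · intro hL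
    have h1 := hL.const_mul s⁻¹
    rw [mul_zero] at h1
    refine h1.congr fun N => ?_
    rw [← mul_assoc, inv_mul_cancel₀ hs, one_mul]
  · intro hL
    have h1 := hL.const_mul s
    rwa [mul_zero] at h1

theorem result :
    (∀ u : ℕ → ℂ, (∀ n, ‖u n‖ ≤ 1) → ∀ c : ℝ, 0 < c →
      (∃ᶠ N in atTop, c ≤ ‖meanAll u N‖) → ∀ P : ℕ, 0 < P →
        (good u P : ℝ) ≤ 162 * (1 + 1 / c) * 2 ^ P / √P) ∧
    (∀ u : ℕ → ℂ, (∀ n, ‖u n‖ ≤ 1) → ∀ c : ℝ, 0 < c → ∀ q j : ℕ,
      (∃ᶠ N in atTop, c ≤ ‖mean u q {j} N‖) → ∀ P : ℕ, 0 < P → q ∣ P →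
        (good u P : ℝ) ≤ 162 * (1 + 1 / c) * 2 ^ P / √P) ∧
    (∀ (X : Type) [MetricSpace X] [CompactSpace X] (T : X → X), Continuous T →
      ∀ (f : X → ℂ), Continuous f → ∀ x : X,
      (∀ K : ℝ, ∃ P : ℕ, 0 < P ∧ K * 2 ^ P / √P ≤ good (term T f x) P) →
        Tendsto (meanAll (term T f x)) atTop (𝓝 0)) ∧
    (LogSarnak ↔ Weak) := by
  classical
  have hmain : ∀ (X : Type) [MetricSpace X] [CompactSpace X] (T : X → X), Continuous T →
      ∀ (f : X → ℂ), Continuous f → ∀ x : X,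
      (∀ K : ℝ, ∃ P : ℕ, 0 < P ∧ K * 2 ^ P / √P ≤ good (term T f x) P) →
        Tendsto (meanAll (term T f x)) atTop (𝓝 0) := by
    intro X _ _ T hT f hf x hK
    obtain ⟨M, hM0, hM⟩ := bounded hf
    have hs : ((M : ℂ))⁻¹ ≠ 0 := inv_ne_zero (by exact_mod_cast hM0.ne')
    have h1 := Q197.PS.log_all (u := fun n => (M : ℂ)⁻¹ * term T f x n) (term_le T hM0 hM x) (fun K => by
      obtain ⟨P, hP, h2⟩ := hK K
      refine ⟨P, hP, h2.trans (le_of_eq ?_)⟩
      have h3 : good (term T f x) P = Q197.PS.nLg (fun n => (M : ℂ)⁻¹ * term T f x n) P := by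
        unfold good Q197.PS.nLg
        have h4 : ∀ A, Tendsto (mean (term T f x) P A) atTop (𝓝 0) ↔
            Tendsto (Q197.PS.mLg (fun n => (M : ℂ)⁻¹ * term T f x n) P A) atTop (𝓝 0) :=
          fun A => (smul_iff hs P A).symm
        simp only [h4]
      rw [h3])
    have h5 := (smul_iff hs 1 {0}).1 h1
    refine h5.congr fun N => ?_
    rw [meanAll_eq]
  refine ⟨fun u hu c hc hfr P hP => ?_, fun u hu c hc q j hfr P hP hd => ?_, hmain, ?_, ?_⟩
  · simp only [meanAll_eq] at hfr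
    exact Q197.PS.few_log hu hc 1 {0} hfr hP (one_dvd P)
  · exact Q197.PS.few_log hu hc q {j} hfr hP hd
  · intro hS X _ _ T hT hent f hf x K
    obtain ⟨P, hP, _, hK⟩ := Q197.PS.sqrt_large 1 one_pos K
    refine ⟨P, hP, hK.trans (le_of_eq ?_)⟩
    have hNe : NeZero P := ⟨hP.ne'⟩
    have h3 : good (term T f x) P = 2 ^ P := by
      unfold good
      rw [filter_eq_self.2, card_powerset, card_range]
      intro A _
      have hne : (Set.univ : Set (X × Q197.PS.Cyc P)).Nonempty := ⟨(x, ⟨0⟩), Set.mem_univ _⟩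
      have hent' : Dynamics.coverEntropy (Q197.PS.skew T P) Set.univ = 0 :=
        le_antisymm ((Q197.PS.skew_entropy T P).trans hent.le) (Dynamics.coverEntropy_nonneg _ hne)
      have hcont : Continuous (fun y : X × Q197.PS.Cyc P => f y.1 * (if y.2.val.val ∈ A then (1 : ℂ) else 0)) := by
        refine (hf.comp continuous_fst).mul ?_
        have : Continuous (fun c : Q197.PS.Cyc P => if c.val.val ∈ A then (1 : ℂ) else 0) :=
          continuous_of_discreteTopology
        exact this.comp continuous_snd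
      have h4 := hS (X × Q197.PS.Cyc P) (Q197.PS.skew T P) (Q197.PS.skew_cont hT P) hent' _ hcont (x, ⟨0⟩)
      refine h4.congr fun N => ?_
      unfold meanAll mean term
      rw [sum_filter, one_div, ← div_eq_inv_mul]
      congr 1
      refine sum_congr rfl fun n _ => ?_
      rw [Q197.PS.skew_iter]
      simp only [zero_add, ZMod.val_natCast]
      split_ifs <;> ring
    rw [h3]
    push_cast
    ring
  · intro hW X _ _ T hT hent f hf x
    exact hmain X T hT f hf x (hW X T hT hent f hf x)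

end Pool.Agent.Results.MP_3e612f_nt.UnionsOfClasses
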